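import Pool.Agent.helper25.TW.Spec2

/-!
# PRD: independent annuli
-/

set_option autoImplicit false

namespace TP.TW

open DP MeasureTheory Finset

theorem PRD_prob : IsProbabilityMeasure P1 := by
  unfold P1
  infer_instance

theorem PRD_mono {F G : Set (V → Bool)} (h : F ⊆ G) : Pr F ≤ Pr G := by
  have := PRD_prob
  unfold Pr
  exact measureReal_mono h

theorem PRD_nonneg (F : Set (V → Bool)) : 0 ≤ Pr F := measureReal_nonneg

theorem PRD_le_one (F : Set (V → Bool)) : Pr F ≤ 1 := by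
  have := PRD_prob
  unfold Pr
  exact measureReal_le_one

theorem PRD_sub (k : Bool) (S : Finset V) (i : V) (r : ℕ) :
    (Ev fun c => SRA c k S i r) ⊆ Ev fun c => SR c k S i r := by
  rintro b ⟨u, v, h1, h2, h3⟩
  exact ⟨u, v, h1.le, h2.ge, h3.mono Set.inter_subset_left⟩

theorem PRD_one (C : ℝ) (hC : 0 < C) (R : ℕ) (hR : 8192 * C ≤ R)
    (hspr : ∀ (k : Bool) (S : Finset V) (x : V) (t : ℕ), 1 ≤ t →
      Pr (Ev fun c => SR c k S x t) ≤ C * #(S.filter fun v => sd x v ≤ 3 * t + 1) / (t : ℝ) ^ 2)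
    (k : Bool) (S : Finset V) (i : V) (h : ℕ) (hL : Low R S i h) (j : ℕ) :
    Pr (Ev fun c => SRA c k S i (2 ^ (h + 2) * 8 ^ j)) ≤ 1 / 512 := by
  obtain ⟨r, hr⟩ : ∃ r : ℕ, r = 2 ^ (h + 2) * 8 ^ j := ⟨_, rfl⟩
  have hr2 : r = 2 ^ (h + 2 + 3 * j) := by
    rw [hr, pow_add _ (h + 2) (3 * j), pow_mul]
    norm_num
  have hr1 : 1 ≤ r := by
    rw [hr2]
    exact Nat.one_le_two_pow
  have h4r : 4 * r = 2 ^ (h + 4 + 3 * j) := by
    rw [hr2, show h + 4 + 3 * j = (h + 2 + 3 * j) + 2 by ring, pow_add _ _ 2]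
    ring
  rw [← hr]
  refine (PRD_mono (PRD_sub k S i r)).trans ((hspr k S i r hr1).trans ?_)
  have hlow := hL (h + 4 + 3 * j) (by omega)
  rw [← h4r] at hlow
  have h44 : 4 ^ (h + 4 + 3 * j) = 16 * r ^ 2 := by
    have : (4 : ℕ) ^ (h + 4 + 3 * j) = (2 ^ (h + 4 + 3 * j)) ^ 2 := by
      rw [← pow_mul, mul_comm _ 2, pow_mul]
      norm_num
    rw [this, ← h4r]
    ring
  rw [h44] at hlow
  have hsub : (S.filter fun v => sd i v ≤ 3 * r + 1) ⊆ S.filter fun b => sd i b ≤ 4 * r := by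
    intro v hv
    rw [mem_filter] at hv ⊢
    exact ⟨hv.1, by omega⟩
  have hc : #(S.filter fun v => sd i v ≤ 3 * r + 1) ≤ #(S.filter fun b => sd i b ≤ 4 * r) :=
    card_le_card hsub
  have hR0 : (0 : ℝ) < R := lt_of_lt_of_le (by positivity) hR
  have hlow' : (R : ℝ) * #(S.filter fun v => sd i v ≤ 3 * r + 1) ≤ 16 * (r : ℝ) ^ 2 := by
    have h1 : R * #(S.filter fun v => sd i v ≤ 3 * r + 1) ≤ 16 * r ^ 2 :=
      (Nat.mul_le_mul_left R hc).trans hlow
    exact_mod_cast h1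
  have hr0 : (0 : ℝ) < (r : ℝ) ^ 2 := by
    have : (0 : ℝ) < r := by exact_mod_cast hr1
    positivity
  rw [div_le_iff₀ hr0]
  have hcard0 : (0 : ℝ) ≤ #(S.filter fun v => sd i v ≤ 3 * r + 1) := Nat.cast_nonneg _
  have h2 : 8192 * C * #(S.filter fun v => sd i v ≤ 3 * r + 1) ≤
      R * #(S.filter fun v => sd i v ≤ 3 * r + 1) := mul_le_mul_of_nonneg_right hR hcard0
  linarith

theorem PRD_loc (lc2 : LC2_stmt) (k : Bool) (S : Finset V) (i : V) (h J : ℕ) :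
    Loc (Ev fun c => ∀ j < J, SRA c k S i (2 ^ (h + 2) * 8 ^ j))
      (box i (2 ^ (h + 2) * 8 ^ J - 2)) := by
  induction J with
  | zero =>
    have e : (Ev fun c => ∀ j < 0, SRA c k S i (2 ^ (h + 2) * 8 ^ j)) = Set.univ := by
      ext b
      simp [Ev]
    rw [e]
    exact Loc.univ _
  | succ J ih =>
    have e : (Ev fun c => ∀ j < J + 1, SRA c k S i (2 ^ (h + 2) * 8 ^ j)) =
        (Ev fun c => ∀ j < J, SRA c k S i (2 ^ (h + 2) * 8 ^ j)) ∩
          Ev fun c => SRA c k S i (2 ^ (h + 2) * 8 ^ J) := by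
      ext b
      constructor
      · intro hb
        exact ⟨fun j hj => hb j (by omega), hb J (by omega)⟩
      · rintro ⟨h1, h2⟩ j hj
        rcases Nat.lt_succ_iff_lt_or_eq.1 hj with h3 | rfl
        · exact h1 j h3
        · exact h2
    rw [e]
    refine (ih.inter (lc2.1 k S i _)).mono ?_
    have hr : 4 ≤ 2 ^ (h + 2) * 8 ^ J := by
      have h1 : 2 ^ 2 ≤ 2 ^ (h + 2) := Nat.pow_le_pow_right (by norm_num) (by omega)
      have h2 : 1 ≤ 8 ^ J := Nat.one_le_pow _ _ (by norm_num)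
      nlinarith
    have hs : 2 ^ (h + 2) * 8 ^ (J + 1) = 8 * (2 ^ (h + 2) * 8 ^ J) := by
      rw [pow_succ]
      ring
    rw [hs]
    rintro v (hv | hv)
    · have hv' : sd i v ≤ 2 ^ (h + 2) * 8 ^ J - 2 := hv
      show sd i v ≤ 8 * (2 ^ (h + 2) * 8 ^ J) - 2
      omega
    · have hv' : sd i v ≤ 3 * (2 ^ (h + 2) * 8 ^ J) := hv.2
      show sd i v ≤ 8 * (2 ^ (h + 2) * 8 ^ J) - 2
      omega

theorem PRD_bdis (i : V) (r : ℕ) (hr : 4 ≤ r) : BDis (box i (r - 2)) (ann i r (3 * r)) := by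
  refine BDis.of_sd ?_
  intro v hv w hw
  have h1 : sd i v ≤ r - 2 := hv
  have h2 : r ≤ sd i w := hw.1
  have h3 := sd_triangle i v w
  omega

theorem PRD (spr : SPR_stmt) (lc2 : LC2_stmt) (ind : IND_stmt) : PRD_stmt := by
  obtain ⟨C, hC, hspr⟩ := spr
  refine ⟨⌈8192 * C⌉₊ + 1, by omega, ?_⟩
  intro k S i h hL J
  have hR : 8192 * C ≤ ((⌈8192 * C⌉₊ + 1 : ℕ) : ℝ) := by
    push_cast
    have := Nat.le_ceil (8192 * C)
    linarith
  induction J with
  | zero =>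
    rw [pow_zero]
    exact PRD_le_one _
  | succ J ih =>
    have e : (Ev fun c => ∀ j < J + 1, SRA c k S i (2 ^ (h + 2) * 8 ^ j)) =
        (Ev fun c => ∀ j < J, SRA c k S i (2 ^ (h + 2) * 8 ^ j)) ∩
          Ev fun c => SRA c k S i (2 ^ (h + 2) * 8 ^ J) := by
      ext b
      constructor
      · intro hb
        exact ⟨fun j hj => hb j (by omega), hb J (by omega)⟩
      · rintro ⟨h1, h2⟩ j hj
        rcases Nat.lt_succ_iff_lt_or_eq.1 hj with h3 | rfl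
        · exact h1 j h3
        · exact h2
    have hr : 4 ≤ 2 ^ (h + 2) * 8 ^ J := by
      have h1 : 2 ^ 2 ≤ 2 ^ (h + 2) := Nat.pow_le_pow_right (by norm_num) (by omega)
      have h2 : 1 ≤ 8 ^ J := Nat.one_le_pow _ _ (by norm_num)
      nlinarith
    rw [e, ind _ _ _ _ (PRD_bdis i _ hr) (PRD_loc lc2 k S i h J) (lc2.1 k S i _), pow_succ]
    have hp : (0 : ℝ) ≤ (1 / 512 : ℝ) ^ J := pow_nonneg (by norm_num) J
    exact mul_le_mul ih (PRD_one C hC _ hR hspr k S i h hL J) (PRD_nonneg _) hp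

end TP.TW
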